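import Pool.Agent.W286.L1.Final

/-!
# The minimal dimension `f n` for isometric embeddings of `n`-point `ℓ₁` metrics

For every `n ≥ 22` the least `m` such that every `n`-point metric space which embeds isometrically
in some `ℓ₁^r` embeds isometrically in `ℓ₁^m` is exactly `n.choose 2 - 1`.

Upper bound: start from a linearly independent decomposition into cuts and pivot a one-point cut
into it; a one-point cut is nested with every other cut.

Lower bound: an integer vector `b` with sum `1` such that the cuts with `b (S) ∈ {0, 1}` are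
pairwise crossing and span a space of dimension `n.choose 2 - 1` (a facet of the cut cone); a
generic metric on this facet needs one coordinate for every cut used, and no fewer than
`n.choose 2 - 1` cuts.
-/

set_option autoImplicit false

namespace Pool.Agent.Results.MP_01798d_co.ExactDimension

open Finset Pool.Agent.W286.L1

lemma dist_l1 {r : ℕ} (f g : PiLp 1 (fun _ : Fin r => ℝ)) : dist f g = ∑ i, |f i - g i| := by
  rw [PiLp.dist_eq_sum (by norm_num)]
  simp [Real.dist_eq]

/-- the metric space of a distance function -/
@[reducible] def mkMS {X : Type} (d : X → X → ℝ) (h1 : ∀ x, d x x = 0)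
    (h2 : ∀ x y, d x y = d y x) (h3 : ∀ x y z, d x z ≤ d x y + d y z)
    (h4 : ∀ x y, d x y = 0 → x = y) : MetricSpace X :=
  { dist := d
    dist_self := h1
    dist_comm := h2
    dist_triangle := h3
    eq_of_dist_eq_zero := fun {x y} h => h4 x y h }

/-- a copy of the ground set without any instances -/
def Pts (m : ℕ) : Type := Fin 18 ⊕ Fin m

theorem result : ∀ n : ℕ, 22 ≤ n →
    IsLeast {m : ℕ | ∀ (X : Type) [MetricSpace X], Nat.card X = n →
        (∃ (r : ℕ) (φ : X → PiLp 1 (fun _ : Fin r => ℝ)), Isometry φ) →
        ∃ φ : X → PiLp 1 (fun _ : Fin m => ℝ), Isometry φ}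
      (n.choose 2 - 1) := by
  intro n hn
  constructor
  · intro X _ hX hemb
    classical
    obtain ⟨r, φ, hφ⟩ := hemb
    haveI : Finite X := Nat.finite_of_card_ne_zero (by omega)
    letI : Fintype X := Fintype.ofFinite X
    have hcard : Fintype.card X = n := by rw [← Nat.card_eq_fintype_card, hX]
    have hup := upper (V := X) (by omega) (fun x y => dist x y) r (fun x i => φ x i)
      (fun x y => by rw [← dist_l1]; exact hφ.dist_eq x y)
    rw [hcard] at hup
    obtain ⟨ψ, hψ⟩ := hup
    refine ⟨fun x => WithLp.toLp 1 (ψ x), Isometry.of_dist_eq fun x y => ?_⟩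
    rw [dist_l1]
    exact hψ x y
  · intro k hk
    obtain ⟨m, rfl⟩ : ∃ m, n = 18 + m := ⟨n - 18, by omega⟩
    obtain ⟨l, hl, hpos, hlow⟩ := lower_final m (by omega)
    let d : Fin 18 ⊕ Fin m → Fin 18 ⊕ Fin m → ℝ := fun x y => ∑ S, l S * cut S x y
    -- coordinates realising the metric
    obtain ⟨ψ, hψ⟩ := coords_of_cuts (V := Fin 18 ⊕ Fin m) univ l hl _ le_rfl d
      (fun _ _ => rfl)
    have hself : ∀ x, d x x = 0 := fun x =>
      sum_eq_zero fun S _ => by rw [cut_self, mul_zero]
    have hcomm : ∀ x y, d x y = d y x := fun x y =>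
      sum_congr rfl fun S _ => by rw [cut_symm]
    have htri : ∀ x y z, d x z ≤ d x y + d y z := fun x y z => by
      rw [← hψ, ← hψ, ← hψ, ← sum_add_distrib]
      exact sum_le_sum fun i _ => abs_sub_le _ _ _
    letI : MetricSpace (Pts m) := mkMS (X := Pts m) d hself hcomm htri (fun x y h => by
      by_contra hne
      exact absurd h (hpos x y hne).ne')
    have hcard : Nat.card (Pts m) = 18 + m := by
      change Nat.card (Fin 18 ⊕ Fin m) = 18 + m
      simp
    obtain ⟨φ, hφ⟩ := hk (Pts m) hcard ⟨_, fun x => WithLp.toLp 1 (ψ x),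
      Isometry.of_dist_eq fun x y => by rw [dist_l1]; exact hψ x y⟩
    exact hlow k (fun x i => φ x i) (fun x y => by
      rw [← dist_l1]
      exact hφ.dist_eq x y)

end Pool.Agent.Results.MP_01798d_co.ExactDimension
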